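import Pool.Agent.helper51.VR.Spec

set_option autoImplicit false
set_option linter.unusedVariables false

/-!
Row DGR of project vr: generators of the dual, restriction to a smaller set of primes.
-/

namespace Pool.Agent.VR

open Pool.Agent.RB NumberField IsDedekindDomain Module
open scoped nonZeroDivisors Real Classical IsMulCommutative

/-- the maps `ord_i` of the larger set on the smaller group are multiples of the maps of the smaller set -/
theorem DGR_ord (hFCT : FCT_stmt) (F H : Type) [Field F] [NumberField F] [Field H] [NumberField H]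
    [Algebra F H] [IsAbelianGalois F H] [IsCMField H] (r s : ℕ) (D : RData F H r) (D' : RData F H s)
    (i : Fin r) : ∃ t : Fin s → MonoidAlgebra ℤ (H ≃ₐ[F] H), ∀ x ∈ UU D',
      ordZ F (D.w i) (x : H) = ∑ j, t j * ordZ F (D'.w j) (x : H) := by
  obtain ⟨-, -, -, g4, g5, -, -, g8⟩ := hFCT F H s D'
  obtain ⟨-, -, -, -, -, f6, -, -⟩ := hFCT F H r D
  by_cases h : D.v i ∈ Set.range D'.v
  · obtain ⟨i', hi'⟩ := h
    obtain ⟨τ, hτ⟩ := (g4 i' (D.w i)).1 ((D.hw i).trans hi'.symm)
    refine ⟨Pi.single i' (MonoidAlgebra.single τ⁻¹ 1), fun x _ => ?_⟩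
    rw [← hτ, g8, Finset.sum_eq_single i']
    · rw [Pi.single_eq_same]
    · intro j _ hj
      rw [Pi.single_eq_of_ne hj, zero_mul]
    · intro hn
      exact absurd (Finset.mem_univ _) hn
  · refine ⟨fun _ => 0, fun x hx => ?_⟩
    have h0 : ordZ F (D.w i) (x : H) = 0 := by
      rw [f6 x i]
      intro P hP
      refine ((g5 x).1 hx).2 P ?_
      rw [hP]
      exact h
    rw [h0]
    refine (Finset.sum_eq_zero fun j _ => ?_).symm
    exact zero_mul _

theorem DGR (hEXT : EXT_stmt) (hPWR : PWR_stmt) (hFCT : FCT_stmt) : DGR_stmt := by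
  intro F H _ _ _ _ _ _ _ r s N D D' hS hT hsub hD
  obtain ⟨hle, hext⟩ := hEXT F H s r D' D hT.symm hsub
  obtain ⟨g, hg, hgen⟩ := hD
  refine ⟨g, fun k => ⟨fun x hx y hy => (hg k).mul x (hle hx) y (hle hy),
    fun σ x hx y hy h => (hg k).equiv σ x (hle hx) y (hle hy) h⟩, fun φ hφ => ?_⟩
  obtain ⟨φ', hφ', he⟩ := hext φ hφ
  obtain ⟨d, a, b, hd, hx⟩ := hgen φ' hφ'
  choose t ht using fun i => DGR_ord hFCT F H r s D D' i
  refine ⟨d, a, fun j => ∑ i, b i * t i j, hd, fun x hxU hxc => ?_⟩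
  have hxc' : (x : H) * D.c (x : H) = 1 := by
    rw [RData_c_eq D D']
    exact hxc
  rw [← he x hxU, hx x (hle hxU) hxc']
  have e : ∑ i, b i * ordZ F (D.w i) (x : H) =
      ∑ j, (∑ i, b i * t i j) * ordZ F (D'.w j) (x : H) := by
    have e1 : ∀ i, b i * ordZ F (D.w i) (x : H) =
        ∑ j, b i * t i j * ordZ F (D'.w j) (x : H) := by
      intro i
      rw [ht i x hxU, Finset.mul_sum]
      exact Finset.sum_congr rfl fun j _ => (mul_assoc _ _ _).symm
    rw [Finset.sum_congr rfl fun i _ => e1 i, Finset.sum_comm]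
    exact Finset.sum_congr rfl fun j _ => (Finset.sum_mul _ _ _).symm
  rw [e]

end Pool.Agent.VR
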